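import Pool.Agent.Helper50.Drop.CoDefs

/-!
# Piece SUP of MP_51c806_gt: the support of the cochains `om2`, `omZ`
-/

set_option autoImplicit false

namespace Pool.Agent.Helper50.Drop

open Finset MeasureTheory
open scoped RealInnerProductSpace
open Pool.Agent.Helper76.Freq (Q ins tr gr ev cobd cup Pr Adm gp Dep Nrm R3 E6 ver pt qf IsTop IsBot
  H4 exists_isTop exists_isBot HH)

namespace Sup

/-! ## the embedding -/

theorem emb_sub (v w : E 4) : emb v - emb w = emb (v - w) := by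
  ext i
  fin_cases i <;> simp [emb]

theorem norm_emb (v : E 4) : ‖emb v‖ = ‖v‖ := by
  have h1 := Pool.Agent.Helper76.Freq.norm7 (emb v)
  have h2 : ‖v‖ ^ 2 = v 0 ^ 2 + v 1 ^ 2 + v 2 ^ 2 + v 3 ^ 2 + v 4 ^ 2 := by
    rw [EuclideanSpace.real_norm_sq_eq, Fin.sum_univ_five]
  have e0 : emb v 0 = v 0 := rfl
  have e1 : emb v 1 = v 1 := rfl
  have e2 : emb v 2 = v 2 := rfl
  have e3 : emb v 3 = v 3 := rfl
  have e4 : emb v 4 = v 4 := rfl
  have e5 : emb v 5 = 0 := rfl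
  have e6 : emb v 6 = 0 := rfl
  rw [e0, e1, e2, e3, e4, e5, e6] at h1
  have : ‖emb v‖ ^ 2 = ‖v‖ ^ 2 := by rw [h1, h2]; ring
  exact (sq_eq_sq₀ (norm_nonneg _) (norm_nonneg _)).1 this

theorem HH_emb (v : E 4) : HH (emb v) = Hf v := by
  have e5 : emb v 5 = 0 := rfl
  have e6 : emb v 6 = 0 := rfl
  rw [HH, e5, e6, Hf]; ring

theorem emb5 (v : E 4) : |emb v 5| ≤ 1 / 10 := by
  have e5 : emb v 5 = 0 := rfl
  rw [e5]; norm_num

theorem emb6 (v : E 4) : |emb v 6| ≤ 1 / 10 := by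
  have e6 : emb v 6 = 0 := rfl
  rw [e6]; norm_num

theorem continuous_emb : Continuous emb :=
  (Isometry.of_dist_eq fun v w => by
    rw [dist_eq_norm, dist_eq_norm, emb_sub, norm_emb]).continuous

theorem continuous_qf : Continuous fun p : E6 × R3 => qf p.1 p.2 := by
  simp only [Pool.Agent.Helper76.Freq.qf_coord]
  fun_prop

theorem continuous_Hf : Continuous Hf := by
  have h : Hf = fun v => HH (emb v) := by funext v; rw [HH_emb]
  rw [h]
  exact Pool.Agent.Helper76.Freq.HH_contDiff.continuous.comp continuous_emb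

theorem Hf_lip : ∃ C : ℝ, 0 < C ∧ ∀ p q : E 4, ‖p‖ = 1 → ‖q‖ = 1 →
    |Hf p - Hf q| ≤ C * ‖p - q‖ := by
  obtain ⟨C, hC, h⟩ := Pool.Agent.Helper76.Freq.HH_lip
  refine ⟨C, hC, fun p q hp hq => ?_⟩
  have := h (emb p) (emb q) (by rw [norm_emb, hp]) (by rw [norm_emb, hq])
  rwa [HH_emb, HH_emb, emb_sub, norm_emb] at this

theorem topv_isTop (u : R3) (y : E 4) : IsTop (emb y) (topv u y) ∧ 0 ≤ ⟪topv u y, u⟫ := by
  have h := (exists_isTop (emb y)).choose_spec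
  unfold topv
  split_ifs with hc
  · exact ⟨h.neg, by rw [inner_neg_left]; linarith⟩
  · exact ⟨h, not_lt.1 hc⟩

theorem botv_isBot (w : R3) (y : E 4) : IsBot (emb y) (botv w y) ∧ 0 ≤ ⟪botv w y, w⟫ := by
  have h := (exists_isBot (emb y)).choose_spec
  unfold botv
  split_ifs with hc
  · exact ⟨h.neg, by rw [inner_neg_left]; linarith⟩
  · exact ⟨h, not_lt.1 hc⟩

theorem top_close' {y y' : E 4} (hy : ‖y‖ = 1) (hy' : ‖y'‖ = 1) (hH : -1 / 2 ≤ Hf y) {a a' : R3}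
    (ha : IsTop (emb y) a) (ha' : IsTop (emb y') a') : 1 - ⟪a, a'⟫ ^ 2 ≤ 14 * ‖y - y'‖ := by
  have h := Pool.Agent.Helper76.Freq.top_close (v := emb y) (v' := emb y') (by rw [norm_emb, hy])
    (by rw [norm_emb, hy']) (emb5 y) (by rw [HH_emb]; exact hH) ha ha'
  rwa [emb_sub, norm_emb] at h

theorem bot_close' {y y' : E 4} (hy : ‖y‖ = 1) (hy' : ‖y'‖ = 1) (hH : Hf y ≤ 1 / 2) {b b' : R3}
    (hb : IsBot (emb y) b) (hb' : IsBot (emb y') b') : 1 - ⟪b, b'⟫ ^ 2 ≤ 14 * ‖y - y'‖ := by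
  have h := Pool.Agent.Helper76.Freq.bot_close (v := emb y) (v' := emb y') (by rw [norm_emb, hy])
    (by rw [norm_emb, hy']) (emb6 y) (by rw [HH_emb]; exact hH) hb hb'
  rwa [emb_sub, norm_emb] at h

/-! ## unit vectors -/

theorem split_inner {e x : R3} (u : R3) {ε : ℝ} (he : ‖e‖ = 1) (hx : ‖x‖ = 1)
    (h : 1 - ⟪e, x⟫ ^ 2 ≤ ε) : (⟪x, u⟫ - ⟪e, x⟫ * ⟪e, u⟫) ^ 2 ≤ ε * ‖u‖ ^ 2 := by
  set w := x - ⟪e, x⟫ • e with hw
  have h1 : ⟪w, u⟫ = ⟪x, u⟫ - ⟪e, x⟫ * ⟪e, u⟫ := by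
    rw [hw, inner_sub_left, real_inner_smul_left]
  have h2 : ‖w‖ ^ 2 = 1 - ⟪e, x⟫ ^ 2 := by
    rw [← real_inner_self_eq_norm_sq, hw, inner_sub_left, inner_sub_right, inner_sub_right,
      real_inner_smul_left, real_inner_smul_right, real_inner_smul_left, real_inner_smul_right,
      real_inner_self_eq_norm_sq, real_inner_self_eq_norm_sq, he, hx, real_inner_comm e x]
    ring
  have h3 : ⟪w, u⟫ ^ 2 ≤ ‖w‖ ^ 2 * ‖u‖ ^ 2 := by
    have := abs_real_inner_le_norm w u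
    rw [← sq_abs, ← mul_pow]
    exact pow_le_pow_left₀ (abs_nonneg _) this 2
  rw [← h1]
  refine h3.trans ?_
  rw [h2]
  exact mul_le_mul_of_nonneg_right h (sq_nonneg _)

theorem inner_small {e a a' u : R3} {ε : ℝ} (he : ‖e‖ = 1) (ha : ‖a‖ = 1) (ha' : ‖a'‖ = 1)
    (h : 1 - ⟪e, a⟫ ^ 2 ≤ ε) (h' : 1 - ⟪e, a'⟫ ^ 2 ≤ ε) (hε : ε ≤ 1 / 4)
    (hn : ⟪a, a'⟫ < 0) (hu : 0 ≤ ⟪a, u⟫) (hu' : 0 ≤ ⟪a', u⟫) :
    ⟪e, u⟫ ^ 2 ≤ 2 * ε * ‖u‖ ^ 2 := by
  have k1 := split_inner u he ha h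
  have k2 := split_inner u he ha' h'
  have k3 := split_inner a' he ha h
  rw [ha'] at k3
  generalize ⟪a, u⟫ = x at *
  generalize ⟪a', u⟫ = x' at *
  generalize ⟪a, a'⟫ = z at *
  generalize ⟪e, a⟫ = s at *
  generalize ⟪e, a'⟫ = s' at *
  generalize ⟪e, u⟫ = p at *
  generalize ‖u‖ ^ 2 = U at *
  have hs : 3 / 4 ≤ s ^ 2 := by linarith
  have hs' : 3 / 4 ≤ s' ^ 2 := by linarith
  have hss : s * s' < 0 := by
    by_contra hc
    push Not at hc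
    have h1 : 9 / 16 ≤ (s * s') ^ 2 := by
      rw [mul_pow]; nlinarith
    have h2 : (s * s') ^ 2 ≤ (z - s * s') ^ 2 := by nlinarith
    nlinarith
  rcases le_or_gt (s * p) 0 with h1 | h1
  · have h2 : (s * p) ^ 2 ≤ (x - s * p) ^ 2 := by nlinarith
    have h3 : 3 / 4 * p ^ 2 ≤ (s * p) ^ 2 := by rw [mul_pow]; nlinarith [sq_nonneg p]
    nlinarith [sq_nonneg p]
  · have h2 : s' * p ≤ 0 := by
      by_contra hc
      push Not at hc
      nlinarith [mul_pos h1 hc, sq_nonneg p]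
    have h2' : (s' * p) ^ 2 ≤ (x' - s' * p) ^ 2 := by nlinarith
    have h3 : 3 / 4 * p ^ 2 ≤ (s' * p) ^ 2 := by rw [mul_pow]; nlinarith [sq_nonneg p]
    nlinarith [sq_nonneg p]

theorem sign_iff {e a a' : R3} (he : ‖e‖ = 1) (ha : ‖a‖ = 1) (ha' : ‖a'‖ = 1)
    (h : 1 - ⟪e, a⟫ ^ 2 ≤ 1 / 10) (h' : 1 - ⟪e, a'⟫ ^ 2 ≤ 1 / 10) :
    ⟪a, a'⟫ < 0 ↔ ((0 < ⟪a, e⟫ ∧ ¬ 0 < ⟪a', e⟫) ∨ (¬ 0 < ⟪a, e⟫ ∧ 0 < ⟪a', e⟫)) := by
  have k3 := split_inner a' he ha h
  rw [ha'] at k3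
  rw [real_inner_comm e a, real_inner_comm e a'] at *
  generalize ⟪a, a'⟫ = z at *
  generalize ⟪e, a⟫ = s at *
  generalize ⟪e, a'⟫ = s' at *
  have h1 : 81 / 100 ≤ (s * s') ^ 2 := by rw [mul_pow]; nlinarith
  constructor
  · intro hz
    by_cases c : 0 < s
    · refine Or.inl ⟨c, fun c' => ?_⟩
      have h4 : 0 < s * s' := mul_pos c c'
      nlinarith
    · refine Or.inr ⟨c, ?_⟩
      by_contra c'
      push Not at c c'
      have h4 : 0 ≤ s * s' := mul_nonneg_of_nonpos_of_nonpos c c'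
      nlinarith
  · rintro (⟨c, c'⟩ | ⟨c, c'⟩)
    · push Not at c'
      have h4 : s * s' ≤ 0 := mul_nonpos_of_nonneg_of_nonpos c.le c'
      by_contra hz
      push Not at hz
      nlinarith
    · push Not at c
      have h4 : s * s' ≤ 0 := mul_nonpos_of_nonpos_of_nonneg c c'.le
      by_contra hz
      push Not at hz
      nlinarith

/-! ## the marked point -/

theorem inner_b0_uB : ⟪b0, uB⟫ = 0 := by
  rw [Pool.Agent.Helper76.Freq.inner3]
  show (2 / 3 : ℝ) * 1 + 2 / 3 * 1 + -1 / 3 * 4 = 0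
  norm_num

theorem norm_a0 : ‖a0‖ = 1 := by
  have h := Pool.Agent.Helper76.Freq.norm3 a0
  have h' : ‖a0‖ ^ 2 = 1 := by
    rw [h]
    show (-1 / 3 : ℝ) ^ 2 + (2 / 3) ^ 2 + (2 / 3) ^ 2 = 1
    norm_num
  nlinarith [norm_nonneg a0]

theorem norm_b0 : ‖b0‖ = 1 := by
  have h := Pool.Agent.Helper76.Freq.norm3 b0
  have h' : ‖b0‖ ^ 2 = 1 := by
    rw [h]
    show (2 / 3 : ℝ) ^ 2 + (2 / 3) ^ 2 + (-1 / 3) ^ 2 = 1
    norm_num
  nlinarith [norm_nonneg b0]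

theorem inner_a0_b0 : ⟪a0, b0⟫ = 0 := by
  rw [Pool.Agent.Helper76.Freq.inner3]
  show (-1 / 3 : ℝ) * (2 / 3) + 2 / 3 * (2 / 3) + 2 / 3 * (-1 / 3) = 0
  norm_num

theorem emb_qpi : emb qpi = pt (√3)⁻¹ a0 (√3)⁻¹ b0 0 0 := by
  have q0 : qpi 0 = (√3)⁻¹ * (ver a0 0 - ver b0 0) := rfl
  have q1 : qpi 1 = (√3)⁻¹ * (ver a0 1 - ver b0 1) := rfl
  have q2 : qpi 2 = (√3)⁻¹ * (ver a0 2 - ver b0 2) := rfl
  have q3 : qpi 3 = (√3)⁻¹ * (ver a0 3 - ver b0 3) := rfl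
  have q4 : qpi 4 = (√3)⁻¹ * (ver a0 4 - ver b0 4) := rfl
  ext i
  fin_cases i
  · show qpi 0 = (√3)⁻¹ * ver a0 0 - (√3)⁻¹ * ver b0 0
    rw [q0]; ring
  · show qpi 1 = (√3)⁻¹ * ver a0 1 - (√3)⁻¹ * ver b0 1
    rw [q1]; ring
  · show qpi 2 = (√3)⁻¹ * ver a0 2 - (√3)⁻¹ * ver b0 2
    rw [q2]; ring
  · show qpi 3 = (√3)⁻¹ * ver a0 3 - (√3)⁻¹ * ver b0 3
    rw [q3]; ring
  · show qpi 4 = (√3)⁻¹ * ver a0 4 - (√3)⁻¹ * ver b0 4
    rw [q4]; ring
  · rfl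
  · rfl

theorem sqrt3_pos : (0 : ℝ) < (√3)⁻¹ := by positivity

theorem inv_sqrt3_sq : ((√3)⁻¹ : ℝ) ^ 2 = 1 / 3 := by
  rw [inv_pow, Pool.Agent.Helper76.Freq.sqrt3_sq]; norm_num

theorem qpi_top : IsTop (emb qpi) a0 := by
  rw [emb_qpi]
  exact Pool.Agent.Helper76.Freq.isTop_pt sqrt3_pos.le sqrt3_pos.le norm_a0 norm_b0 inner_a0_b0

theorem qpi_bot : IsBot (emb qpi) b0 := by
  rw [emb_qpi]
  exact Pool.Agent.Helper76.Freq.isBot_pt sqrt3_pos.le sqrt3_pos.le norm_a0 norm_b0 inner_a0_b0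

theorem norm_qpi : ‖qpi‖ = 1 := by
  rw [← norm_emb, emb_qpi]
  have h := Pool.Agent.Helper76.Freq.norm_sq_pt (√3)⁻¹ (√3)⁻¹ 0 0 norm_a0 norm_b0 inner_a0_b0
  have h2 := inv_sqrt3_sq
  have h3 : ‖pt (√3)⁻¹ a0 (√3)⁻¹ b0 0 0‖ ^ 2 = 1 := by
    rw [h]; linarith
  nlinarith [norm_nonneg (pt (√3)⁻¹ a0 (√3)⁻¹ b0 0 0)]

theorem Hf_qpi : Hf qpi = 0 := by
  rw [Hf, emb_qpi, Pool.Agent.Helper76.Freq.H4_pt norm_a0 norm_b0 inner_a0_b0]
  ring

/-- the marked point is characterised by its top and bottom vectors -/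
theorem eq_qpi {y : E 4} {a b : R3} (hy : ‖y‖ = 1) (ha : IsTop (emb y) a) (hb : IsBot (emb y) b)
    (hH : Hf y = 0) (h1 : ⟪a, uA⟫ = 0) (h2 : ⟪b, uB⟫ = 0) (h3 : ⟪b, uC⟫ = 0) : y = qpi := by
  have hab : ⟪a, b⟫ = 0 := Pool.Agent.Helper76.Freq.top_bot_orth (v := emb y)
    (by rw [norm_emb, hy]) (emb5 y) (emb6 y) (by rw [HH_emb, hH]; norm_num) ha hb
  have na := Pool.Agent.Helper76.Freq.norm3 a
  have nb := Pool.Agent.Helper76.Freq.norm3 b
  rw [ha.1] at na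
  rw [hb.1] at nb
  rw [Pool.Agent.Helper76.Freq.inner3] at h1 h2 h3 hab
  have uA0 : uA 0 = 4 := rfl
  have uA1 : uA 1 = 1 := rfl
  have uA2 : uA 2 = 1 := rfl
  have uB0 : uB 0 = 1 := rfl
  have uB1 : uB 1 = 1 := rfl
  have uB2 : uB 2 = 4 := rfl
  have uC0 : uC 0 = 1 := rfl
  have uC1 : uC 1 = -1 := rfl
  have uC2 : uC 2 = 0 := rfl
  rw [uA0, uA1, uA2] at h1
  rw [uB0, uB1, uB2] at h2
  rw [uC0, uC1, uC2] at h3
  have b1 : b 1 = b 0 := by linarith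
  have b2 : b 2 = - b 0 / 2 := by rw [b1] at h2; linarith
  have bb : b 0 ^ 2 = 4 / 9 := by rw [b1, b2] at nb; linarith
  have hb0 : b 0 ≠ 0 := by
    intro h; rw [h] at bb; norm_num at bb
  have e1 : a 0 + a 1 - a 2 / 2 = 0 := by
    rw [b1, b2] at hab
    have : b 0 * (a 0 + a 1 - a 2 / 2) = 0 := by linarith
    exact (mul_eq_zero.1 this).resolve_left hb0
  have a1 : a 1 = -2 * a 0 := by linarith
  have a2 : a 2 = -2 * a 0 := by linarith
  have aa : a 0 ^ 2 = 1 / 9 := by rw [a1, a2] at na; linarith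
  -- the decomposition
  obtain ⟨α, β, a', b', hα, hβ, ha', hb', hab', hd⟩ := Pool.Agent.Helper76.Freq.exists_dec (emb y)
  have e5 : emb y 5 = 0 := rfl
  have e6 : emb y 6 = 0 := rfl
  rw [e5, e6] at hd
  have hn := Pool.Agent.Helper76.Freq.norm_sq_pt α β 0 0 ha' hb' hab'
  rw [← hd, norm_emb, hy] at hn
  have hh : α ^ 3 + 3 / 2 * α ^ 2 * β - 3 / 2 * α * β ^ 2 - β ^ 3 = 0 := by
    rw [← Pool.Agent.Helper76.Freq.H4_pt (σ := 0) (t := 0) ha' hb' hab', ← hd]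
    exact hH
  have hab2 : 0 ≤ α * β := mul_nonneg hα hβ
  have hαβ : α = β := by
    have h4 : (α - β) * (α ^ 2 + 5 / 2 * α * β + β ^ 2) = 0 := by linarith
    rcases mul_eq_zero.1 h4 with h | h
    · linarith
    · exfalso; linarith
  have hα3 : α ^ 2 = 1 / 3 := by rw [← hαβ] at hn; linarith
  have hα4 : α = (√3)⁻¹ :=
    (sq_eq_sq₀ hα sqrt3_pos.le).1 (by rw [hα3, inv_sqrt3_sq])
  have hα0 : 0 < α := by rw [hα4]; exact sqrt3_pos
  rw [hd] at ha hb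
  have ca := Pool.Agent.Helper76.Freq.eq_of_isTop_pt hα0 hβ ha' hb' hab' ha
  have cb := Pool.Agent.Helper76.Freq.eq_of_isBot_pt hα (hαβ ▸ hα0) ha' hb' hab' hb
  have pa : a' = a ∨ a' = -a := by
    rcases ca with h | h
    · exact Or.inl h.symm
    · exact Or.inr (by rw [h, neg_neg])
  have pb : b' = b ∨ b' = -b := by
    rcases cb with h | h
    · exact Or.inl h.symm
    · exact Or.inr (by rw [h, neg_neg])
  have vneg : ∀ x : R3, ver (-x) = ver x := by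
    intro x
    funext i
    fin_cases i
    · show √3 * (-x 0) * (-x 1) = √3 * x 0 * x 1
      ring
    · show √3 * (-x 0) * (-x 2) = √3 * x 0 * x 2
      ring
    · show √3 * (-x 1) * (-x 2) = √3 * x 1 * x 2
      ring
    · show √3 / 2 * ((-x 0) ^ 2 - (-x 2) ^ 2) = √3 / 2 * (x 0 ^ 2 - x 2 ^ 2)
      ring
    · show ((-x 0) ^ 2 + (-x 2) ^ 2 - 2 * (-x 1) ^ 2) / 2 = (x 0 ^ 2 + x 2 ^ 2 - 2 * x 1 ^ 2) / 2
      ring
  have va : ver a' = ver a := by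
    rcases pa with h | h
    · rw [h]
    · rw [h, vneg]
  have vb : ver b' = ver b := by
    rcases pb with h | h
    · rw [h]
    · rw [h, vneg]
  have va0 : ver a = ver a0 := by
    funext i
    fin_cases i
    · show √3 * a 0 * a 1 = √3 * (-1 / 3) * (2 / 3)
      rw [a1]; linear_combination -2 * √3 * aa
    · show √3 * a 0 * a 2 = √3 * (-1 / 3) * (2 / 3)
      rw [a2]; linear_combination -2 * √3 * aa
    · show √3 * a 1 * a 2 = √3 * (2 / 3) * (2 / 3)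
      rw [a1, a2]; linear_combination 4 * √3 * aa
    · show √3 / 2 * (a 0 ^ 2 - a 2 ^ 2) = √3 / 2 * ((-1 / 3) ^ 2 - (2 / 3) ^ 2)
      rw [a2]; linear_combination -3 * √3 / 2 * aa
    · show (a 0 ^ 2 + a 2 ^ 2 - 2 * a 1 ^ 2) / 2 = ((-1 / 3) ^ 2 + (2 / 3) ^ 2 - 2 * (2 / 3) ^ 2) / 2
      rw [a1, a2]; linear_combination -3 / 2 * aa
  have vb0 : ver b = ver b0 := by
    funext i
    fin_cases i
    · show √3 * b 0 * b 1 = √3 * (2 / 3) * (2 / 3)
      rw [b1]; linear_combination √3 * bb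
    · show √3 * b 0 * b 2 = √3 * (2 / 3) * (-1 / 3)
      rw [b2]; linear_combination -√3 / 2 * bb
    · show √3 * b 1 * b 2 = √3 * (2 / 3) * (-1 / 3)
      rw [b1, b2]; linear_combination -√3 / 2 * bb
    · show √3 / 2 * (b 0 ^ 2 - b 2 ^ 2) = √3 / 2 * ((2 / 3) ^ 2 - (-1 / 3) ^ 2)
      rw [b2]; linear_combination 3 / 8 * √3 * bb
    · show (b 0 ^ 2 + b 2 ^ 2 - 2 * b 1 ^ 2) / 2 = ((2 / 3) ^ 2 + (-1 / 3) ^ 2 - 2 * (2 / 3) ^ 2) / 2
      rw [b1, b2]; linear_combination -3 / 8 * bb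
  have hfin : emb y = emb qpi := by
    rw [hd, emb_qpi, ← hαβ, ← hα4]
    ext i
    fin_cases i
    · show α * ver a' 0 - α * ver b' 0 = α * ver a0 0 - α * ver b0 0
      rw [va, vb, va0, vb0]
    · show α * ver a' 1 - α * ver b' 1 = α * ver a0 1 - α * ver b0 1
      rw [va, vb, va0, vb0]
    · show α * ver a' 2 - α * ver b' 2 = α * ver a0 2 - α * ver b0 2
      rw [va, vb, va0, vb0]
    · show α * ver a' 3 - α * ver b' 3 = α * ver a0 3 - α * ver b0 3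
      rw [va, vb, va0, vb0]
    · show α * ver a' 4 - α * ver b' 4 = α * ver a0 4 - α * ver b0 4
      rw [va, vb, va0, vb0]
    · rfl
    · rfl
  have h0 : ‖y - qpi‖ = 0 := by
    rw [← norm_emb, ← emb_sub, hfin, sub_self, norm_zero]
  exact sub_eq_zero.1 (norm_eq_zero.1 h0)

/-! ## compactness -/

/-- points of the sphere away from the marked point, with top and bottom vectors -/
def away (ρ : ℝ) : Set (E 4 × R3 × R3) :=
  {x | ‖x.1‖ = 1 ∧ IsTop (emb x.1) x.2.1 ∧ IsBot (emb x.1) x.2.2 ∧ ρ ≤ ‖x.1 - qpi‖}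

theorem isCompact_away (ρ : ℝ) : IsCompact (away ρ) := by
  refine Metric.isCompact_of_isClosed_isBounded ?_ ?_
  · have hE : away ρ = {x : E 4 × R3 × R3 | ‖x.1‖ = 1} ∩ ({x | IsTop (emb x.1) x.2.1} ∩
        ({x | IsBot (emb x.1) x.2.2} ∩ {x | ρ ≤ ‖x.1 - qpi‖})) := rfl
    rw [hE]
    refine IsClosed.inter (isClosed_eq (continuous_fst.norm) continuous_const) (IsClosed.inter ?_
      (IsClosed.inter ?_ (isClosed_le continuous_const (continuous_fst.sub continuous_const).norm)))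
    · have h : {x : E 4 × R3 × R3 | IsTop (emb x.1) x.2.1} = {x | ‖x.2.1‖ = 1} ∩
          ⋂ z : R3, {x | ‖z‖ = 1 → qf (emb x.1) z ≤ qf (emb x.1) x.2.1} := by
        ext x
        simp [Pool.Agent.Helper76.Freq.IsTop]
      show IsClosed {x : E 4 × R3 × R3 | IsTop (emb x.1) x.2.1}
      rw [h]
      refine IsClosed.inter (isClosed_eq (by fun_prop) continuous_const) (isClosed_iInter fun z => ?_)
      by_cases hz : ‖z‖ = 1
      · simp only [hz, true_imp_iff]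
        exact isClosed_le (continuous_qf.comp ((continuous_emb.comp continuous_fst).prodMk
          continuous_const)) (continuous_qf.comp ((continuous_emb.comp continuous_fst).prodMk
          (continuous_fst.comp continuous_snd)))
      · simp [hz]
    · have h : {x : E 4 × R3 × R3 | IsBot (emb x.1) x.2.2} = {x | ‖x.2.2‖ = 1} ∩
          ⋂ z : R3, {x | ‖z‖ = 1 → qf (emb x.1) x.2.2 ≤ qf (emb x.1) z} := by
        ext x
        simp [Pool.Agent.Helper76.Freq.IsBot]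
      show IsClosed {x : E 4 × R3 × R3 | IsBot (emb x.1) x.2.2}
      rw [h]
      refine IsClosed.inter (isClosed_eq (by fun_prop) continuous_const) (isClosed_iInter fun z => ?_)
      by_cases hz : ‖z‖ = 1
      · simp only [hz, true_imp_iff]
        exact isClosed_le (continuous_qf.comp ((continuous_emb.comp continuous_fst).prodMk
          (continuous_snd.comp continuous_snd))) (continuous_qf.comp
          ((continuous_emb.comp continuous_fst).prodMk continuous_const))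
      · simp [hz]
  · refine (Metric.isBounded_closedBall (x := (0 : E 4 × R3 × R3)) (r := 1)).subset ?_
    rintro ⟨y, a, b⟩ ⟨h1, h2, h3, -⟩
    rw [mem_closedBall_zero_iff]
    simp only at h1 h2 h3
    rw [Prod.norm_def, Prod.norm_def]
    simp [h1, h2.1, h3.1]

/-- the quantity which vanishes at the marked point only -/
noncomputable def Fq (x : E 4 × R3 × R3) : ℝ :=
  ⟪x.2.1, uA⟫ ^ 2 + ⟪x.2.2, uB⟫ ^ 2 + ⟪x.2.2, uC⟫ ^ 2 + Hf x.1 ^ 2

theorem continuous_Fq : Continuous Fq := by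
  unfold Fq
  have := continuous_Hf
  fun_prop

theorem exists_lower (ρ : ℝ) (hρ : 0 < ρ) : ∃ c : ℝ, 0 < c ∧ ∀ x ∈ away ρ, c ≤ Fq x := by
  rcases (away ρ).eq_empty_or_nonempty with h | h
  · exact ⟨1, one_pos, fun x hx => by rw [h] at hx; exact hx.elim⟩
  · obtain ⟨x, hx, hmin⟩ := (isCompact_away ρ).exists_isMinOn h continuous_Fq.continuousOn
    refine ⟨Fq x, ?_, fun z hz => hmin hz⟩
    have h0 : 0 ≤ Fq x := by unfold Fq; positivity
    rcases h0.lt_or_eq with h1 | h1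
    · exact h1
    · exfalso
      obtain ⟨y, a, b⟩ := x
      obtain ⟨k1, k2, k3, k4⟩ := hx
      simp only [Fq] at h1
      simp only at k1 k2 k3 k4
      have q1 := sq_nonneg ⟪a, uA⟫
      have q2 := sq_nonneg ⟪b, uB⟫
      have q3 := sq_nonneg ⟪b, uC⟫
      have q4 := sq_nonneg (Hf y)
      have := eq_qpi k1 k2 k3 (pow_eq_zero_iff (two_ne_zero)|>.1 (by linarith))
        (pow_eq_zero_iff (two_ne_zero)|>.1 (by linarith))
        (pow_eq_zero_iff (two_ne_zero)|>.1 (by linarith))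
        (pow_eq_zero_iff (two_ne_zero)|>.1 (by linarith))
      rw [this, sub_self, norm_zero] at k4
      linarith

theorem om2_eq (y : ℕ → E 4) : om2 y = (chi (y 1) - chi (y 0)) *
    (cC (y 1) (y 2) * (cB (y 2) (y 3) * cA (y 3) (y 4))) := by
  simp only [om2, th, cup, cobd, c1, sum_range_succ, range_zero, sum_empty, zero_add, pow_zero,
    one_mul, pow_one, neg_mul]
  rw [show Pool.Agent.Helper76.Freq.sk 0 0 = 1 from rfl,
    show Pool.Agent.Helper76.Freq.sk 1 0 = 0 from rfl]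
  rw [sub_eq_add_neg]

theorem norm_uA_sq : ‖uA‖ ^ 2 = 18 := by
  rw [Pool.Agent.Helper76.Freq.norm3]
  show (4 : ℝ) ^ 2 + 1 ^ 2 + 1 ^ 2 = 18
  norm_num

theorem norm_uB_sq : ‖uB‖ ^ 2 = 18 := by
  rw [Pool.Agent.Helper76.Freq.norm3]
  show (1 : ℝ) ^ 2 + 1 ^ 2 + 4 ^ 2 = 18
  norm_num

theorem norm_uC_sq : ‖uC‖ ^ 2 = 2 := by
  rw [Pool.Agent.Helper76.Freq.norm3]
  show (1 : ℝ) ^ 2 + (-1) ^ 2 + 0 ^ 2 = 2
  norm_num

/-! ## the integral cochain near the marked point -/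

theorem near_top {y : E 4} (hy : ‖y‖ = 1) (h : ‖y - qpi‖ < 1 / 140) :
    1 - ⟪a0, topv uA y⟫ ^ 2 ≤ 1 / 10 := by
  have h1 := top_close' norm_qpi hy (by rw [Hf_qpi]; norm_num) qpi_top (topv_isTop uA y).1
  rw [norm_sub_rev] at h1
  linarith

theorem near_bot {y : E 4} (u : R3) (hy : ‖y‖ = 1) (h : ‖y - qpi‖ < 1 / 140) :
    1 - ⟪b0, botv u y⟫ ^ 2 ≤ 1 / 10 := by
  have h1 := bot_close' norm_qpi hy (by rw [Hf_qpi]; norm_num) qpi_bot (botv_isBot u y).1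
  rw [norm_sub_rev] at h1
  linarith

theorem cA_eq {y y' : E 4} (hy : ‖y‖ = 1) (hy' : ‖y'‖ = 1) (h : ‖y - qpi‖ < 1 / 140)
    (h' : ‖y' - qpi‖ < 1 / 140) : ((hA y' - hA y : ℤ) : ZMod 2) = cA y y' := by
  have hs := sign_iff norm_a0 (topv_isTop uA y).1.1 (topv_isTop uA y').1.1 (near_top hy h)
    (near_top hy' h')
  unfold hA cA
  by_cases c : 0 < ⟪topv uA y, a0⟫ <;> by_cases c' : 0 < ⟪topv uA y', a0⟫ <;>
    simp only [c, c', not_true_eq_false, not_false_eq_true, and_false, and_true, or_false,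
      false_or] at hs <;> simp [hs, c, c']

theorem cB_eq {y y' : E 4} (hy : ‖y‖ = 1) (hy' : ‖y'‖ = 1) (h : ‖y - qpi‖ < 1 / 140)
    (h' : ‖y' - qpi‖ < 1 / 140) : ((hB y' - hB y : ℤ) : ZMod 2) = cB y y' := by
  have hs := sign_iff norm_b0 (botv_isBot uB y).1.1 (botv_isBot uB y').1.1 (near_bot uB hy h)
    (near_bot uB hy' h')
  unfold hB cB
  by_cases c : 0 < ⟪botv uB y, b0⟫ <;> by_cases c' : 0 < ⟪botv uB y', b0⟫ <;>
    simp only [c, c', not_true_eq_false, not_false_eq_true, and_false, and_true, or_false,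
      false_or] at hs <;> simp [hs, c, c']

theorem cC_eq {y y' : E 4} (hy : ‖y‖ = 1) (hy' : ‖y'‖ = 1) (h : ‖y - qpi‖ < 1 / 140)
    (h' : ‖y' - qpi‖ < 1 / 140) : ((hC y' - hC y : ℤ) : ZMod 2) = cC y y' := by
  have hs := sign_iff norm_b0 (botv_isBot uC y).1.1 (botv_isBot uC y').1.1 (near_bot uC hy h)
    (near_bot uC hy' h')
  unfold hC cC
  by_cases c : 0 < ⟪botv uC y, b0⟫ <;> by_cases c' : 0 < ⟪botv uC y', b0⟫ <;>
    simp only [c, c', not_true_eq_false, not_false_eq_true, and_false, and_true, or_false,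
      false_or] at hs <;> simp [hs, c, c']

theorem chi_eq (y y' : E 4) : ((hX y' - hX y : ℤ) : ZMod 2) = chi y' - chi y := by
  unfold hX chi
  by_cases c : 0 < Hf y <;> by_cases c' : 0 < Hf y' <;> simp [c, c']

theorem prod4_mod {y : ℕ → E 4} (hy : ∀ i < 5, ‖y i‖ = 1)
    (h : ∀ i < 5, ‖y i - qpi‖ < 1 / 140) :
    ((prod4 hX hC hB hA y : ℤ) : ZMod 2) = om2 y := by
  rw [om2_eq, prod4, Int.cast_mul, Int.cast_mul, Int.cast_mul, chi_eq,
    cC_eq (hy 1 (by norm_num)) (hy 2 (by norm_num)) (h 1 (by norm_num)) (h 2 (by norm_num)),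
    cB_eq (hy 2 (by norm_num)) (hy 3 (by norm_num)) (h 2 (by norm_num)) (h 3 (by norm_num)),
    cA_eq (hy 3 (by norm_num)) (hy 4 (by norm_num)) (h 3 (by norm_num)) (h 4 (by norm_num))]

theorem hX_cases (y y' : E 4) : hX y' - hX y = 0 ∨ hX y' - hX y = 1 ∨ hX y' - hX y = -1 := by
  unfold hX; split_ifs <;> simp

theorem hA_cases (y y' : E 4) : hA y' - hA y = 0 ∨ hA y' - hA y = 1 ∨ hA y' - hA y = -1 := by
  unfold hA; split_ifs <;> simp

theorem hB_cases (y y' : E 4) : hB y' - hB y = 0 ∨ hB y' - hB y = 1 ∨ hB y' - hB y = -1 := by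
  unfold hB; split_ifs <;> simp

theorem hC_cases (y y' : E 4) : hC y' - hC y = 0 ∨ hC y' - hC y = 1 ∨ hC y' - hC y = -1 := by
  unfold hC; split_ifs <;> simp

theorem prod4_cases (y : ℕ → E 4) : prod4 hX hC hB hA y = 0 ∨ prod4 hX hC hB hA y = 1 ∨
    prod4 hX hC hB hA y = -1 := by
  unfold prod4
  rcases hX_cases (y 0) (y 1) with h1 | h1 | h1 <;> rcases hC_cases (y 1) (y 2) with h2 | h2 | h2 <;>
    rcases hB_cases (y 2) (y 3) with h3 | h3 | h3 <;>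
    rcases hA_cases (y 3) (y 4) with h4 | h4 | h4 <;> rw [h1, h2, h3, h4] <;> norm_num

theorem cobd_prod4 (f₁ f₂ f₃ f₄ : E 4 → ℤ) (y : ℕ → E 4) :
    cobd 4 (prod4 f₁ f₂ f₃ f₄) y = 0 := by
  simp only [cobd, prod4, sum_range_succ, range_zero, sum_empty, zero_add,
    Pool.Agent.Helper76.Freq.sk]
  norm_num
  ring

end Sup

open Sup

/-- support of `om2` -/
theorem om2_support (ρ : ℝ) (hρ : 0 < ρ) : ∃ δ : ℝ, 0 < δ ∧ ∀ y : ℕ → E 4, (∀ i < 5, ‖y i‖ = 1) →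
    (∀ i < 5, ∀ j < 5, ‖y i - y j‖ < δ) → om2 y ≠ 0 → ∀ i < 5, ‖y i - qpi‖ < ρ := by
  obtain ⟨c, hc, hlow⟩ := exists_lower (ρ / 2) (by positivity)
  obtain ⟨C, hC, hLip⟩ := Hf_lip
  set B : ℝ := 1064 + C with hB
  have hB0 : 0 < B := by positivity
  refine ⟨min (min (ρ / 2) (1 / 56)) (min (1 / (2 * C)) (c / B)), by positivity, ?_⟩
  intro y hy hm hom
  set δ := min (min (ρ / 2) (1 / 56)) (min (1 / (2 * C)) (c / B)) with hδ
  have d1 : δ ≤ ρ / 2 := (min_le_left _ _).trans (min_le_left _ _)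
  have d2 : δ ≤ 1 / 56 := (min_le_left _ _).trans (min_le_right _ _)
  have d3 : δ ≤ 1 / (2 * C) := (min_le_right _ _).trans (min_le_left _ _)
  have d4 : δ ≤ c / B := (min_le_right _ _).trans (min_le_right _ _)
  have d5 : C * δ ≤ 1 / 2 := by
    calc C * δ ≤ C * (1 / (2 * C)) := mul_le_mul_of_nonneg_left d3 hC.le
      _ = 1 / 2 := by field_simp
  have d6 : B * δ ≤ c := by
    calc B * δ ≤ B * (c / B) := mul_le_mul_of_nonneg_left d4 hB0.le
      _ = c := by field_simp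
  rw [om2_eq] at hom
  have n0 : chi (y 1) - chi (y 0) ≠ 0 := fun h => hom (by rw [h]; ring)
  have nC : cC (y 1) (y 2) ≠ 0 := fun h => hom (by rw [h]; ring)
  have nB : cB (y 2) (y 3) ≠ 0 := fun h => hom (by rw [h]; ring)
  have nA : cA (y 3) (y 4) ≠ 0 := fun h => hom (by rw [h]; ring)
  have iA : ⟪topv uA (y 3), topv uA (y 4)⟫ < 0 := by
    by_contra h; exact nA (by unfold cA; rw [if_neg h])
  have iB : ⟪botv uB (y 2), botv uB (y 3)⟫ < 0 := by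
    by_contra h; exact nB (by unfold cB; rw [if_neg h])
  have iC : ⟪botv uC (y 1), botv uC (y 2)⟫ < 0 := by
    by_contra h; exact nC (by unfold cC; rw [if_neg h])
  have hL01 := hLip (y 0) (y 1) (hy 0 (by norm_num)) (hy 1 (by norm_num))
  have hd01 := hm 0 (by norm_num) 1 (by norm_num)
  have hL : |Hf (y 0) - Hf (y 1)| ≤ C * δ := hL01.trans (mul_le_mul_of_nonneg_left hd01.le hC.le)
  have hH0 : |Hf (y 0)| ≤ C * δ := by
    have habs := abs_le.1 hL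
    unfold chi at n0
    rw [abs_le]
    by_cases h1 : 0 < Hf (y 1) <;> by_cases h0 : 0 < Hf (y 0)
    · simp [h0, h1] at n0
    · push Not at h0
      constructor <;> linarith [habs.1, habs.2]
    · push Not at h1
      constructor <;> linarith [habs.1, habs.2]
    · simp [h0, h1] at n0
  have hH0' := abs_le.1 hH0
  obtain ⟨a, ha⟩ := exists_isTop (emb (y 0))
  obtain ⟨b, hb⟩ := exists_isBot (emb (y 0))
  have tc : ∀ j < 5, ∀ a', IsTop (emb (y j)) a' → 1 - ⟪a, a'⟫ ^ 2 ≤ 14 * δ := by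
    intro j hj a' ha'
    refine (top_close' (hy 0 (by norm_num)) (hy j hj) (by linarith [hH0'.1]) ha ha').trans ?_
    have := hm 0 (by norm_num) j hj
    linarith
  have bc : ∀ j < 5, ∀ b', IsBot (emb (y j)) b' → 1 - ⟪b, b'⟫ ^ 2 ≤ 14 * δ := by
    intro j hj b' hb'
    refine (bot_close' (hy 0 (by norm_num)) (hy j hj) (by linarith [hH0'.2]) hb hb').trans ?_
    have := hm 0 (by norm_num) j hj
    linarith
  have fA : ⟪a, uA⟫ ^ 2 ≤ 2 * (14 * δ) * ‖uA‖ ^ 2 :=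
    inner_small ha.1 (topv_isTop uA (y 3)).1.1 (topv_isTop uA (y 4)).1.1
      (tc 3 (by norm_num) _ (topv_isTop uA (y 3)).1) (tc 4 (by norm_num) _ (topv_isTop uA (y 4)).1)
      (by linarith) iA (topv_isTop uA (y 3)).2 (topv_isTop uA (y 4)).2
  have fB : ⟪b, uB⟫ ^ 2 ≤ 2 * (14 * δ) * ‖uB‖ ^ 2 :=
    inner_small hb.1 (botv_isBot uB (y 2)).1.1 (botv_isBot uB (y 3)).1.1
      (bc 2 (by norm_num) _ (botv_isBot uB (y 2)).1) (bc 3 (by norm_num) _ (botv_isBot uB (y 3)).1)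
      (by linarith) iB (botv_isBot uB (y 2)).2 (botv_isBot uB (y 3)).2
  have fC : ⟪b, uC⟫ ^ 2 ≤ 2 * (14 * δ) * ‖uC‖ ^ 2 :=
    inner_small hb.1 (botv_isBot uC (y 1)).1.1 (botv_isBot uC (y 2)).1.1
      (bc 1 (by norm_num) _ (botv_isBot uC (y 1)).1) (bc 2 (by norm_num) _ (botv_isBot uC (y 2)).1)
      (by linarith) iC (botv_isBot uC (y 1)).2 (botv_isBot uC (y 2)).2
  rw [norm_uA_sq] at fA
  rw [norm_uB_sq] at fB
  rw [norm_uC_sq] at fC
  have hδ0 : 0 < δ := by rw [hδ]; positivity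
  have fH : Hf (y 0) ^ 2 < C * δ := by
    have h1 : Hf (y 0) ^ 2 ≤ (C * δ) ^ 2 := by
      rw [← sq_abs]; exact pow_le_pow_left₀ (abs_nonneg _) hH0 2
    have h2 : 0 < C * δ := by positivity
    nlinarith
  have hnear : ‖y 0 - qpi‖ < ρ / 2 := by
    by_contra h
    push Not at h
    have := hlow (y 0, a, b) ⟨hy 0 (by norm_num), ha, hb, h⟩
    simp only [Fq] at this
    have hBd : B * δ = 1064 * δ + C * δ := by rw [hB]; ring
    linarith
  intro i hi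
  have h1 := hm i hi 0 (by norm_num)
  calc ‖y i - qpi‖ = ‖(y i - y 0) + (y 0 - qpi)‖ := by congr 1; abel
    _ ≤ ‖y i - y 0‖ + ‖y 0 - qpi‖ := norm_add_le _ _
    _ < ρ := by linarith

/-- on small simplices the integral cochain reduces to `om2` -/
theorem omZ_mod : ∃ δ : ℝ, 0 < δ ∧ ∀ y : ℕ → E 4, (∀ i < 5, ‖y i‖ = 1) →
    (∀ i < 5, ∀ j < 5, ‖y i - y j‖ < δ) → ((omZ y : ℤ) : ZMod 2) = om2 y := by
  obtain ⟨δ, hδ, h⟩ := om2_support (1 / 140) (by norm_num)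
  refine ⟨δ, hδ, fun y hy hm => ?_⟩
  by_cases hc : ∀ i < 5, ‖y i - qpi‖ < 1 / 140
  · rw [omZ, if_pos hc]
    exact prod4_mod hy hc
  · rw [omZ, if_neg hc, Int.cast_zero]
    by_contra hne
    exact hc (h y hy hm (fun h0 => hne h0.symm))

/-- support of `omZ` -/
theorem omZ_support (ρ : ℝ) (hρ : 0 < ρ) : ∃ δ : ℝ, 0 < δ ∧ ∀ y : ℕ → E 4, (∀ i < 5, ‖y i‖ = 1) →
    (∀ i < 5, ∀ j < 5, ‖y i - y j‖ < δ) → omZ y ≠ 0 → ∀ i < 5, ‖y i - qpi‖ < ρ := by
  obtain ⟨δ, hδ, h⟩ := om2_support ρ hρ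
  refine ⟨δ, hδ, fun y hy hm h0 => h y hy hm ?_⟩
  unfold omZ at h0
  by_cases hc : ∀ i < 5, ‖y i - qpi‖ < 1 / 140
  · rw [if_pos hc] at h0
    rw [← prod4_mod hy hc]
    rcases prod4_cases y with h1 | h1 | h1
    · exact absurd h1 h0
    · rw [h1]; decide
    · rw [h1]; decide
  · rw [if_neg hc] at h0
    exact absurd rfl h0

/-- the cochain `omZ` is a cocycle on small simplices -/
theorem omZ_cocycle : ∃ δ : ℝ, 0 < δ ∧ ∀ y : ℕ → E 4, (∀ i < 6, ‖y i‖ = 1) →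
    (∀ i < 6, ∀ j < 6, ‖y i - y j‖ < δ) → cobd 4 omZ y = 0 := by
  obtain ⟨δ, hδ, h⟩ := omZ_support (1 / 280) (by norm_num)
  refine ⟨min δ (1 / 280), by positivity, fun y hy hm => ?_⟩
  have hsk : ∀ k < 6, ∀ i < 5, Pool.Agent.Helper76.Freq.sk k i < 6 := by
    intro k _ i hi
    unfold Pool.Agent.Helper76.Freq.sk
    split_ifs <;> omega
  by_cases hc : ∃ i < 6, ‖y i - qpi‖ < 1 / 280
  · obtain ⟨i, hi, hci⟩ := hc
    have hall : ∀ j < 6, ‖y j - qpi‖ < 1 / 140 := by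
      intro j hj
      have h1 := (hm j hj i hi).trans_le (min_le_right _ _)
      calc ‖y j - qpi‖ = ‖(y j - y i) + (y i - qpi)‖ := by congr 1; abel
        _ ≤ ‖y j - y i‖ + ‖y i - qpi‖ := norm_add_le _ _
        _ < 1 / 140 := by linarith
    rw [← cobd_prod4 hX hC hB hA y]
    unfold cobd
    refine sum_congr rfl fun k hk => ?_
    rw [omZ, if_pos]
    intro j hj
    exact hall _ (hsk k (mem_range.1 hk) j hj)
  · push Not at hc
    unfold cobd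
    refine sum_eq_zero fun k hk => ?_
    have hk' : k < 6 := mem_range.1 hk
    have : omZ (fun j => y (Pool.Agent.Helper76.Freq.sk k j)) = 0 := by
      by_contra hne
      have := h _ (fun i hi => hy _ (hsk k hk' i hi))
        (fun i hi j hj => (hm _ (hsk k hk' i hi) _ (hsk k hk' j hj)).trans_le (min_le_left _ _))
        hne 0 (by norm_num)
      exact absurd this (not_lt.2 (hc _ (hsk k hk' 0 (by norm_num))))
    rw [this, mul_zero]

end Pool.Agent.Helper50.Drop
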